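import Pool.Agent.H992.PM.JDefs

/-!
# Arbitrary sequences, weighted (JM6)
-/

set_option autoImplicit false
open MeasureTheory Filter Topology Complex ProbabilityTheory
open scoped ContDiff ENNReal

namespace Pool.Agent.H34.JM

open Pool.Agent.W745.RW (TF)
open Pool.Agent.N661.BR (MW IsRandomWave)
open Pool.Agent.N661.BH (loc)
open Pool.Agent.N814.BHM (P mass)
open Pool.Agent.N814.BHASM (Hyp X)
open Pool.Agent.H992.LB (eγ eX)
open Pool.Agent.H992.SF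
open Pool.Agent.H992.PM

lemma hyp_comp {Ω : Set ℂ} {lam : ℕ → ℝ} {u : ℕ → ℂ → ℝ} (H : Hyp Ω lam u) {r : ℕ → ℕ}
    (hr : Tendsto r atTop atTop) : Hyp Ω (fun n => lam (r n)) (fun n => u (r n)) where
  op := H.op
  sub := H.sub
  ne := H.ne
  int := H.int
  pos := fun n => H.pos (r n)
  lim := H.lim.comp hr
  sm := fun n => H.sm (r n)
  eq := fun n => H.eq (r n)
  qe := fun φ a1 k => (H.qe φ a1 k).comp hr

theorem jgen (h1 : S_SUB) (h2 : S_JCLS) (h3 : S_JALL) : S_JGEN := by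
  intro d Ω lam u hd hH γ hγ hγ2 κ hκ ψ hψ hψ0 U hU hU2 hB χ hχ hχψ τ hτ
  refine tendsto_of_subseq_tendsto fun ns hns => ?_
  obtain ⟨ms, hms, hst⟩ := h1 d lam ns hns
  refine ⟨ms, ?_⟩
  have hH' : ∀ i, Hyp Ω (fun n => lam i (ns (ms n))) (fun n => u i (ns (ms n))) :=
    fun i => hyp_comp (hH i) hms
  refine h3 d Ω (fun i n => lam i (ns (ms n))) (fun i n => u i (ns (ms n))) hd hH' hst γ hγ hγ2 κ
    (fun i j hij => (hκ i j hij).comp hms) ψ hψ hψ0 (fun a => ?_) χ hχ hχψ τ hτ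
  refine h2 d Ω (fun i n => lam i (ns (ms n))) (fun i n => u i (ns (ms n))) hd hH' hst γ hγ hγ2 ψ
    hψ hψ0 U hU hU2 (Finset.univ.filter fun i => κ i = a) ?_
  obtain ⟨C, hC⟩ := hB a
  refine ⟨C, fun n c σ' a1 a2 ε hε => ?_⟩
  exact hms.eventually (hC n c σ' a1 a2 ε hε)

end Pool.Agent.H34.JM
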